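import Pool.Agent.N311.Ind.Final

/-!
Milner's question (1993), Q2 (induced subgraphs): the answer is negative.  For every integer
`n ≥ 5` there is a graph with `ℵ₁` vertices and colouring number `n + 1` none of whose induced
subgraphs has colouring number `n`.
-/

set_option autoImplicit false

open Cardinal

universe u

namespace Pool.Agent.Results.MP_279ba3_co.InducedFails

/-- The colouring number of a graph: the least cardinal `κ` such that some well-ordering of the
vertices has the property that every vertex has fewer than `κ` smaller neighbours. -/
noncomputable def col {V : Type u} (G : SimpleGraph V) : Cardinal.{u} :=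
  sInf {κ : Cardinal.{u} | ∃ r : V → V → Prop, IsWellOrder V r ∧
    ∀ x : V, #{y : V // G.Adj x y ∧ r y x} < κ}

/-- For every `n ≥ 5` some graph with `ℵ₁` vertices has colouring number `n + 1`, but no set of
vertices induces a subgraph with colouring number `n`. -/
theorem result (n : ℕ) (hn : 5 ≤ n) : ∃ (V : Type u) (G : SimpleGraph V),
    #V = aleph 1 ∧ col G = (n : Cardinal.{u}) + 1 ∧
      ∀ W : Set V, col (G.induce W) ≠ (n : Cardinal.{u}) :=
  Pool.Agent.N311.Ind.counterexample n hn

end Pool.Agent.Results.MP_279ba3_co.InducedFails
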